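import Pool.Agent.Lib.MP_4e1dcd_co.Defs
import Pool.Agent.Lib.MP_4e1dcd_co.Even

set_option autoImplicit false

namespace Pool.Agent.Results.MP_4e1dcd_co.EvenK

open Filter Topology

/-- For every even `k` the Trotter–Winkler constant is `f(k) = k / (2k + 2)`; in particular
`f(4) = 2/5`. -/
theorem result : ∀ k : ℕ, Even k →
    Tendsto (fun n => Pool.Agent.TrotterWinkler.f n k) atTop (𝓝 ((k : ℝ) / (2 * k + 2))) := by
  rintro _ ⟨m, rfl⟩
  have h := Pool.Agent.TrotterWinkler.even_case m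
  rw [two_mul] at h
  have h2 : ((m : ℝ) / (2 * m + 1)) = (((m + m : ℕ) : ℝ) / (2 * ((m + m : ℕ) : ℝ) + 2)) := by
    push_cast
    rw [div_eq_div_iff (by positivity) (by positivity)]
    ring
  rwa [← h2]

end Pool.Agent.Results.MP_4e1dcd_co.EvenK
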