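import Pool.Agent.Lib.MP_4e1dcd_co.Defs
import Pool.Agent.Lib.MP_4e1dcd_co.Mono
import Pool.Agent.Lib.MP_4e1dcd_co.Upper3
import Pool.Agent.Lib.MP_4e1dcd_co.Lower59

set_option autoImplicit false

namespace Pool.Agent.Results.MP_4e1dcd_co.F3Bounds

open Filter Topology

/-- `f(4) = 2/5`, while `0.3794208 ≤ f(3) ≤ (5 + 4 √2) / 28 < 0.380602`; in particular
`f(3) > 3/8`. -/
theorem result :
    Tendsto (fun n => Pool.Agent.TrotterWinkler.f n 4) atTop (𝓝 (2 / 5)) ∧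
    ∃ L : ℝ, Tendsto (fun n => Pool.Agent.TrotterWinkler.f n 3) atTop (𝓝 L) ∧
      3 / 8 < L ∧ 0.3794208 ≤ L ∧ L ≤ (5 + 4 * Real.sqrt 2) / 28 ∧ L < 0.380602 := by
  constructor
  · have h4 : Tendsto (fun n => Pool.Agent.TrotterWinkler.f n 4) atTop
        (𝓝 (((2 : ℕ) : ℝ) / (2 * ((2 : ℕ) : ℝ) + 1))) :=
      Pool.Agent.TrotterWinkler.even_case 2
    have h5 : (((2 : ℕ) : ℝ) / (2 * ((2 : ℕ) : ℝ) + 1)) = 2 / 5 := by norm_num
    rwa [h5] at h4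
  · obtain ⟨L, hL, hle, hge⟩ := Pool.Agent.TrotterWinkler.exists_limit 3
    have h1 : (0.3794208 : ℝ) ≤ L :=
      hge _ fun n hn => Pool.Agent.TrotterWinkler.L59.lower59 hn
    have h2 : L ≤ (5 + 4 * Real.sqrt 2) / 28 :=
      Pool.Agent.TrotterWinkler.three_upper_sqrt hle
    have h3 : Real.sqrt 2 < 1.414214 :=
      (Real.sqrt_lt' (by norm_num)).mpr (by norm_num)
    refine ⟨L, hL, lt_of_lt_of_le (by norm_num) h1, h1, h2, h2.trans_lt ?_⟩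
    norm_num at h3 ⊢
    linarith

end Pool.Agent.Results.MP_4e1dcd_co.F3Bounds
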